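import Pool.Agent.Helper20.ProjectiveBLProofs

set_option autoImplicit false

namespace Pool.Agent.Results.MP_2139d9_an.LinftySumNotProjective

open Pool.Agent.Helper20.ProjectiveBL

universe v

/-- Negative answer to Q1: there are two projective Banach lattices with topological order units
(namely `ℓ_1` and `ℝ`) whose `ℓ_∞`-sum is not projective. -/
theorem result : ∃ P : Fin 2 → BanachLattice.{0},
    (∀ k, Projective.{0, v} (P k)) ∧ (∀ k, HasTopologicalOrderUnit (P k)) ∧
      ¬ Projective.{0, v} (linftySum P) := by
  refine ⟨pair, ?_, ?_, not_projective⟩
  · intro k
    fin_cases k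
    · exact projective_l1
    · exact projective_real
  · intro k
    fin_cases k
    · exact unit_l1
    · exact unit_real

end Pool.Agent.Results.MP_2139d9_an.LinftySumNotProjective
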